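import Pool.Agent.R468.GL.Inst

/-!
THE LOCAL LIMIT LAW OF THE TOTAL STOPPING TIME. The number of positive integers up to `x` whose total
stopping time is exactly `k`, uniformly for `k` within `O(√(log x))` of the mean value.

Author: helper468. Uses the local limit theorem for the first hits of a finite set
(Pool/Agent/H499R2/LT) and the thin set estimates (Pool/Agent/R344/TH).
-/

set_option autoImplicit false

namespace Pool.Agent.Results.MP_a1568a_nt.LocalLimitLaw

open Filter Topology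

/-- the `3x+1` function -/
def T (n : ℕ) : ℕ := if n % 2 = 0 then n / 2 else (3 * n + 1) / 2

/-- `t` is the total stopping time of `n` -/
def IsTotalStoppingTime (n t : ℕ) : Prop := T^[t] n = 1 ∧ ∀ j < t, T^[j] n ≠ 1

/-- the number of the positive integers `n ≤ x` with total stopping time exactly `k` -/
noncomputable def N (x : ℝ) (k : ℕ) : ℕ :=
  {n : ℕ | 1 ≤ n ∧ (n : ℝ) ≤ x ∧ IsTotalStoppingTime n k}.ncard

/-- the positive integers with the property `P` have the natural density `δ` -/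
def HasDensity (P : ℕ → Prop) (δ : ℝ) : Prop :=
  Tendsto (fun M : ℕ => ({n : ℕ | 1 ≤ n ∧ n ≤ M ∧ P n}.ncard : ℝ) / M) atTop (𝓝 δ)

/-- the constant of the mean value -/
noncomputable def μ : ℝ := 2 / Real.log (4 / 3)

/-- the constant of the variance -/
noncomputable def σ2 : ℝ := 2 * Real.log 3 ^ 2 / Real.log (4 / 3) ^ 3

/-- the value at `k` of the density of the normal distribution of mean `μ log x` and variance
`σ2 log x` -/
noncomputable def g (x : ℝ) (k : ℕ) : ℝ :=
  Real.exp (-(((k : ℝ) - μ * Real.log x) ^ 2 / (2 * (σ2 * Real.log x)))) /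
    Real.sqrt (2 * Real.pi * (σ2 * Real.log x))

/-- THE LOCAL LIMIT LAW OF THE TOTAL STOPPING TIME. There are `δ` and a function `Ψ` such that

* `0 < δ ≤ 1`, `δ` is the density of the integers of finite total stopping time, and `δ = 1` iff all
  positive integers have finite total stopping time;
* `Ψ` is continuous, has period one, lies between `δ (log 3) / 2` and `3 δ (log 3) / 2`, and its mean
  is `δ`;
* `N(x, k) / (x g(x, k)) - Ψ (log_3 (x / 2^k))` tends to zero as `x → ∞`, uniformly for the integers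
  `k` with `|k - μ log x| ≤ K √(log x)`, for every `K`. -/
theorem result : ∃ (δ : ℝ) (Ψ : ℝ → ℝ), 0 < δ ∧ δ ≤ 1 ∧
    (δ = 1 ↔ ∀ n : ℕ, 1 ≤ n → ∃ t : ℕ, T^[t] n = 1) ∧
    HasDensity (fun n => ∃ t : ℕ, T^[t] n = 1) δ ∧
    Continuous Ψ ∧ (∀ s : ℝ, Ψ (s + 1) = Ψ s) ∧
    (∀ s : ℝ, δ * (Real.log 3 / 2) ≤ Ψ s ∧ Ψ s ≤ δ * (3 * Real.log 3 / 2)) ∧
    (∫ s in (0 : ℝ)..1, Ψ s = δ) ∧
    ∀ K ε : ℝ, 0 < ε → ∃ X₀ : ℝ, ∀ x : ℝ, X₀ ≤ x → ∀ k : ℕ,
      |(k : ℝ) - μ * Real.log x| ≤ K * Real.sqrt (Real.log x) →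
      |(N x k : ℝ) / (x * g x k) - Ψ (Real.logb 3 (x / 2 ^ k))| ≤ ε :=
  Pool.Agent.R468.GL.law_T

end Pool.Agent.Results.MP_a1568a_nt.LocalLimitLaw
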