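import Mathlib
import Pool.Agent.R469.Rig

set_option autoImplicit false

/-!
The total stopping time is, up to a bounded error, a linear function of `log n` and of the number of the
odd terms of the trajectory: `σ∞(n) log 2 = log n + o(n) log 3 + O(1)` uniformly in `n`. So a logarithmic
bound for the total stopping time, with any given constant, is the same as a bound for the proportion of
the odd terms.
-/

namespace Pool.Agent.Results.MP_a1568a_nt.OddTermsCriterion

open Finset

/-- The `3x+1` function. -/
def T (n : ℕ) : ℕ := if n % 2 = 0 then n / 2 else (3 * n + 1) / 2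

/-- `k` is the total stopping time `σ∞(n)`: the least `k ≥ 0` with `T^(k)(n) = 1` (so it is finite). -/
def IsStoppingTime (n k : ℕ) : Prop := IsLeast {j : ℕ | T^[j] n = 1} k

/-- The number of the odd terms among `n, T n, ..., T^(k-1) n`. -/
def odds (k n : ℕ) : ℕ := ((Finset.range k).filter fun i => T^[i] n % 2 = 1).card

/-- `n, T n, ..., T^(k-1) n` are pairwise different. -/
def Distinct (n k : ℕ) : Prop := ∀ i < k, ∀ j < k, T^[i] n = T^[j] n → i = j

open Pool.Agent.R469

/-- (1) There is `K` such that `T^k n` is `3^o n / 2^k`, `o` the number of the odd terms among the first `k`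
ones, up to a factor between `1` and `exp (K N ^ (-0.049))`, whenever the first `k` terms of the
trajectory of `n` are pairwise different and at least `N ≥ 1`.
(2) For all `n ≥ 1` of finite total stopping time `k`, with `o` odd terms before `1`:
`log n + o log 3 ≤ k log 2 ≤ log n + o log 3 + K`.
(3) For every `c > 0`: `σ∞(n) ≤ c log n + O(1)` for all `n` of finite total stopping time if and only if
`o(n) ≤ ((log 2 - 1 / c) / log 3) σ∞(n) + O(1)` for all these `n`.
(4) The bound of Q1 holds for some constant `c` if and only if every `n ≥ 1` reaches `1` and there is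
`ρ < log 2 / log 3` such that for all `n ≥ 2` the proportion of the odd terms among the terms before the
first `1` is at most `ρ`. -/
theorem result :
    (∃ K : ℝ, 0 < K ∧
      (∀ n k : ℕ, 1 ≤ n → Distinct n k → ∀ N : ℝ, 1 ≤ N → (∀ j < k, N ≤ (T^[j] n : ℕ)) →
        Real.log n + odds k n * Real.log 3 - k * Real.log 2 ≤ Real.log (T^[k] n : ℕ) ∧
        Real.log (T^[k] n : ℕ) ≤
          Real.log n + odds k n * Real.log 3 - k * Real.log 2 + K * N ^ (-(49 / 1000) : ℝ)) ∧
      (∀ n k : ℕ, 1 ≤ n → IsStoppingTime n k →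
        Real.log n + odds k n * Real.log 3 ≤ k * Real.log 2 ∧
        k * Real.log 2 ≤ Real.log n + odds k n * Real.log 3 + K)) ∧
    (∀ c : ℝ, 0 < c →
      ((∃ B : ℝ, ∀ n k : ℕ, 1 ≤ n → IsStoppingTime n k → (k : ℝ) ≤ c * Real.log n + B) ↔
        ∃ B : ℝ, ∀ n k : ℕ, 1 ≤ n → IsStoppingTime n k →
          (odds k n : ℝ) ≤ (Real.log 2 - 1 / c) / Real.log 3 * k + B)) ∧
    ((∃ c : ℝ, 0 < c ∧ ∀ n : ℕ, 2 ≤ n → ∃ k : ℕ, IsStoppingTime n k ∧ (k : ℝ) ≤ c * Real.log n) ↔
      (∀ n : ℕ, 1 ≤ n → ∃ k : ℕ, IsStoppingTime n k) ∧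
      ∃ ρ : ℝ, ρ < Real.log 2 / Real.log 3 ∧
        ∀ n k : ℕ, 2 ≤ n → IsStoppingTime n k → (odds k n : ℝ) ≤ ρ * k) := by
  obtain ⟨K, hK0, hK⟩ := Rig.log_upper
  have l3 : 0 < Real.log 3 := Real.log_pos (by norm_num)
  have l2 : 0 < Real.log 2 := Real.log_pos (by norm_num)
  have hlow : ∀ n k : ℕ, 1 ≤ n → IsStoppingTime n k →
      Real.log n + odds k n * Real.log 3 ≤ k * Real.log 2 := by
    intro n k hn hk
    have h1 : Real.log n + odds k n * Real.log 3 - k * Real.log 2 ≤ Real.log (T^[k] n : ℕ) :=
      Rig.log_lower hn k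
    have h2 : T^[k] n = 1 := hk.1
    rw [h2] at h1
    simp only [Nat.cast_one, Real.log_one] at h1
    linarith
  have hup : ∀ n k : ℕ, 1 ≤ n → IsStoppingTime n k →
      k * Real.log 2 ≤ Real.log n + odds k n * Real.log 3 + K := by
    intro n k hn hk
    have hinj := Rig.inj_of_least (f := T) (n := n) (k := k) hk
    have h1 : Real.log (T^[k] n : ℕ) ≤
        Real.log n + odds k n * Real.log 3 - k * Real.log 2 + K * (1 : ℝ) ^ (-(49 / 1000) : ℝ) :=
      hK n k hn (fun i hi j hj => hinj i (by omega) j (by omega)) 1 le_rfl (fun j _ => by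
        exact_mod_cast Rig.iter_pos hn j)
    have h2 : T^[k] n = 1 := hk.1
    rw [h2] at h1
    simp only [Nat.cast_one, Real.log_one, Real.one_rpow] at h1
    linarith
  refine ⟨⟨K, hK0, ?_, fun n k hn hk => ⟨hlow n k hn hk, hup n k hn hk⟩⟩, ?_, ?_⟩
  · intro n k hn hd N hN hmin
    exact ⟨Rig.log_lower hn k, hK n k hn hd N hN hmin⟩
  · intro c hc
    constructor
    · rintro ⟨B, hB⟩
      refine ⟨B / c / Real.log 3, fun n k hn hk => ?_⟩
      have h1 := hlow n k hn hk
      have h2 := hB n k hn hk
      have h3 : (odds k n : ℝ) * Real.log 3 ≤ (Real.log 2 - 1 / c) * k + B / c := by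
        have h4 : ((k : ℝ) - B) / c ≤ Real.log n := by
          rw [div_le_iff₀ hc]; linarith
        have h5 : ((k : ℝ) - B) / c = 1 / c * k - B / c := by ring
        linarith
      have h6 : (Real.log 2 - 1 / c) / Real.log 3 * k + B / c / Real.log 3 =
          ((Real.log 2 - 1 / c) * k + B / c) / Real.log 3 := by ring
      rw [h6, le_div_iff₀ l3]
      exact h3
    · rintro ⟨B, hB⟩
      refine ⟨c * (B * Real.log 3 + K), fun n k hn hk => ?_⟩
      have h1 := hup n k hn hk
      have h2 := hB n k hn hk
      have h3 : (odds k n : ℝ) * Real.log 3 ≤ (Real.log 2 - 1 / c) * k + B * Real.log 3 := by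
        have h4 := mul_le_mul_of_nonneg_right h2 l3.le
        have h5 : ((Real.log 2 - 1 / c) / Real.log 3 * k + B) * Real.log 3 =
            (Real.log 2 - 1 / c) * k + B * Real.log 3 := by
          field_simp
        linarith
      have h6 : 1 / c * (k : ℝ) ≤ Real.log n + B * Real.log 3 + K := by linarith
      have h7 := mul_le_mul_of_nonneg_left h6 hc.le
      have h8 : c * (1 / c * (k : ℝ)) = k := by field_simp
      rw [h8] at h7
      linarith
  · constructor
    · rintro ⟨c, hc, h⟩
      refine ⟨fun n hn => ?_, (Real.log 2 - 1 / c) / Real.log 3, ?_, ?_⟩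
      · rcases Nat.lt_or_ge n 2 with h1 | h1
        · have : n = 1 := by omega
          subst this
          exact ⟨0, rfl, fun j _ => Nat.zero_le j⟩
        · obtain ⟨k, hk, _⟩ := h n h1
          exact ⟨k, hk⟩
      · apply div_lt_div_of_pos_right _ l3
        have : 0 < 1 / c := by positivity
        linarith
      · intro n k hn hk
        obtain ⟨k', hk', hb⟩ := h n hn
        have hkk : k = k' := hk.unique hk'
        subst hkk
        have h1 := hlow n k (by omega) hk
        rw [div_mul_eq_mul_div, le_div_iff₀ l3]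
        have h2 : (k : ℝ) / c ≤ Real.log n := by
          rw [div_le_iff₀ hc]; linarith
        have h5 : (k : ℝ) / c = 1 / c * k := by ring
        linarith
    · rintro ⟨hall, ρ, hρ, h⟩
      have hδ : 0 < Real.log 2 - ρ * Real.log 3 := by
        have := (lt_div_iff₀ l3).1 hρ
        linarith
      refine ⟨(1 + K / Real.log 2) / (Real.log 2 - ρ * Real.log 3), by positivity, fun n hn => ?_⟩
      obtain ⟨k, hk⟩ := hall n (by omega)
      refine ⟨k, hk, ?_⟩
      have h1 := hup n k (by omega) hk
      have h2 := mul_le_mul_of_nonneg_right (h n k hn hk) l3.le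
      have h3 : (k : ℝ) * (Real.log 2 - ρ * Real.log 3) ≤ Real.log n + K := by nlinarith
      have h4 : Real.log 2 ≤ Real.log n := Real.log_le_log (by norm_num) (by exact_mod_cast hn)
      have h5 : K ≤ K / Real.log 2 * Real.log n := by
        rw [div_mul_eq_mul_div, le_div_iff₀ l2]
        exact mul_le_mul_of_nonneg_left h4 hK0.le
      rw [div_mul_eq_mul_div, le_div_iff₀ hδ]
      nlinarith

end Pool.Agent.Results.MP_a1568a_nt.OddTermsCriterion
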