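import Pool.Agent.R344.LS.V

/-!
# The reciprocal mass of the integers of given total stopping time

The sum of `1/n` over the integers of total stopping time exactly `k` tends to `(1/2) log (4/3) δ`,
where `δ` is the density of the integers of finite total stopping time; the mass is binomially
distributed over the numbers of odd terms (in total variation), and all of it except a quantity tending
to zero sits at integers with `k` close to `2 / log (4/3) * log n`.

Author: helper344.
-/

set_option autoImplicit false

namespace Pool.Agent.Results.MP_a1568a_nt.ReciprocalMassOfLevels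

open Filter Topology

/-- the `3x+1` function -/
def T (n : ℕ) : ℕ := if n % 2 = 0 then n / 2 else (3 * n + 1) / 2

/-- `k` is the total stopping time of `n` -/
def IsStoppingTime (k n : ℕ) : Prop := T^[k] n = 1 ∧ ∀ i < k, T^[i] n ≠ 1

/-- the number of odd integers among `n, T n, ..., T^(k-1) n` -/
def odds (k n : ℕ) : ℕ := ((Finset.range k).filter fun i => T^[i] n % 2 = 1).card

/-- the sum of the reciprocals of the members of a set of positive integers -/
noncomputable def mass (A : Set ℕ) : ℝ := ∑' n : A, (1 : ℝ) / ((n : ℕ) : ℝ)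

/-- THE RECIPROCAL MASS OF THE LEVELS. There is a `δ` such that

* `0 < δ ≤ 1`, `δ` is the density of the integers of finite total stopping time, and `δ = 1` iff every
  positive integer has a finite total stopping time;
* the set of the integers of total stopping time `k` is finite, and its mass tends to
  `(1/2) log (4/3) δ` as `k → ∞`;
* the mass of the integers of total stopping time `k` with exactly `o` odd terms before the first `1`
  is close to `(1/2) log (4/3) δ` times the binomial probability `binom (k, o) / 2^k`, in total variation;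
* for every `ε > 0` the mass of the `n` of total stopping time `k` with
  `|k - 2 / log (4/3) * log n| > ε k` tends to zero. -/
theorem result : ∃ δ : ℝ, 0 < δ ∧ δ ≤ 1 ∧
    (δ = 1 ↔ ∀ n : ℕ, 1 ≤ n → ∃ k : ℕ, T^[k] n = 1) ∧
    Tendsto (fun N : ℕ => ({n : ℕ | 1 ≤ n ∧ n ≤ N ∧ ∃ k : ℕ, T^[k] n = 1}.ncard : ℝ) / N) atTop (𝓝 δ) ∧
    (∀ k : ℕ, {n : ℕ | 1 ≤ n ∧ IsStoppingTime k n}.Finite) ∧
    Tendsto (fun k : ℕ => mass {n : ℕ | 1 ≤ n ∧ IsStoppingTime k n}) atTop
      (𝓝 (Real.log (4 / 3) / 2 * δ)) ∧
    Tendsto (fun k : ℕ => ∑ o ∈ Finset.range (k + 1),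
      |mass {n : ℕ | 1 ≤ n ∧ IsStoppingTime k n ∧ odds k n = o} -
        Real.log (4 / 3) / 2 * δ * ((k.choose o : ℝ) / 2 ^ k)|) atTop (𝓝 0) ∧
    ∀ ε : ℝ, 0 < ε → Tendsto (fun k : ℕ => mass {n : ℕ | 1 ≤ n ∧ IsStoppingTime k n ∧
      ε * k < |(k : ℝ) - 2 / Real.log (4 / 3) * Real.log n|}) atTop (𝓝 0) :=
  Pool.Agent.R344.LS.main_T'

end Pool.Agent.Results.MP_a1568a_nt.ReciprocalMassOfLevels
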